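import Pool.Agent.Helper9.SK.St
import Mathlib

/-!
# Project SK (MP_2d2425_nt), module FIN: all scales
-/

set_option autoImplicit false

noncomputable section

namespace Pool.Agent.Helper42.SK

open Finset ArithmeticFunction
open Pool.Agent.Helper9.SK

/-- the numbers `k < t` with `2n + σ(k)` prime -/
def kset (t : ℝ) (n : ℕ) : Set ℕ := {k : ℕ | 0 < k ∧ (k : ℝ) < t ∧ (2 * n + sigma 1 k).Prime}

theorem kset_finite (t : ℝ) (n : ℕ) : (kset t n).Finite := by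
  refine (Set.finite_Icc 0 ⌊t⌋₊).subset fun k hk => ?_
  rw [Set.mem_Icc]
  refine ⟨Nat.zero_le _, ?_⟩
  have h2 : (k : ℝ) < t := hk.2.1
  exact Nat.le_floor h2.le

theorem kset_mono {t u : ℝ} (h : t ≤ u) (n : ℕ) : (kset t n).ncard ≤ (kset u n).ncard :=
  Set.ncard_le_ncard (fun _ hk => ⟨hk.1, hk.2.1.trans_le h, hk.2.2⟩) (kset_finite u n)

/-- the exceptional numbers -/
def bad (κ : ℝ) (n : ℕ) : Prop :=
  (((kset ((n : ℝ) ^ κ) n).ncard : ℕ) : ℝ) < (n : ℝ) ^ (κ / 2) / Real.log n ^ 6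

def bset (κ : ℝ) (X : ℕ) : Set ℕ := {n : ℕ | 1 ≤ n ∧ n ≤ X ∧ bad κ n}

theorem bset_finite (κ : ℝ) (X : ℕ) : (bset κ X).Finite :=
  (Set.finite_Icc 1 X).subset fun _ hn => ⟨hn.1, hn.2.1⟩

theorem bset_card_le (κ : ℝ) (X : ℕ) : (bset κ X).ncard ≤ X := by
  have h := Set.ncard_le_ncard (s := bset κ X) (t := Set.Icc 1 X) (fun _ hn => ⟨hn.1, hn.2.1⟩) (Set.finite_Icc 1 X)
  rw [← Finset.coe_Icc, Set.ncard_coe_finset, Nat.card_Icc] at h
  omega

/-- an exceptional number of `(Y, 2Y]` is exceptional at the scale `Y` -/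
theorem bad_scale {κ : ℝ} (h1 : 0 < κ) (h2 : κ < 1) {Y n : ℕ} (hY : 8 ≤ Y) (a : Y < n) (b : n ≤ 2 * Y)
    (h : bad κ n) : (((kset ((Y : ℝ) ^ κ) n).ncard : ℕ) : ℝ) < (Y : ℝ) ^ (κ / 2) / Real.log Y ^ 5 := by
  have hY' : (8 : ℝ) ≤ Y := by exact_mod_cast hY
  have hYn : (Y : ℝ) ≤ n := by exact_mod_cast a.le
  have hn2 : (n : ℝ) ≤ 2 * Y := by exact_mod_cast b
  have c1 : (Y : ℝ) ^ κ ≤ (n : ℝ) ^ κ := Real.rpow_le_rpow (by positivity) hYn h1.le
  have c2 : (((kset ((Y : ℝ) ^ κ) n).ncard : ℕ) : ℝ) ≤ (((kset ((n : ℝ) ^ κ) n).ncard : ℕ) : ℝ) := by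
    exact_mod_cast kset_mono c1 n
  refine c2.trans_lt (lt_of_lt_of_le h ?_)
  have l2 : 2 ≤ Real.log Y := by
    have e8 : Real.log 8 = 3 * Real.log 2 := by
      rw [show (8 : ℝ) = 2 ^ 3 by norm_num, Real.log_pow]
      norm_num
    have := Real.log_two_gt_d9
    have h3 : Real.log 8 ≤ Real.log Y := Real.log_le_log (by norm_num) hY'
    linarith
  have l3 : Real.log Y ≤ Real.log n := Real.log_le_log (by linarith) hYn
  have c3 : (n : ℝ) ^ (κ / 2) ≤ 2 * (Y : ℝ) ^ (κ / 2) := by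
    have h3 : (n : ℝ) ^ (κ / 2) ≤ (2 * Y : ℝ) ^ (κ / 2) := Real.rpow_le_rpow (by positivity) hn2 (by linarith)
    have h4 : (2 * Y : ℝ) ^ (κ / 2) = 2 ^ (κ / 2) * (Y : ℝ) ^ (κ / 2) := Real.mul_rpow (by norm_num) (by positivity)
    have h5 : (2 : ℝ) ^ (κ / 2) ≤ 2 ^ (1 : ℝ) := Real.rpow_le_rpow_of_exponent_le (by norm_num) (by linarith)
    rw [Real.rpow_one] at h5
    rw [h4] at h3
    exact h3.trans (mul_le_mul_of_nonneg_right h5 (by positivity))
  have c4 : Real.log Y ^ 6 ≤ Real.log n ^ 6 := pow_le_pow_left₀ (by linarith) l3 6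
  have lp : 0 < Real.log Y := by linarith
  have yp : 0 < (Y : ℝ) ^ (κ / 2) := Real.rpow_pos_of_pos (by linarith) _
  calc (n : ℝ) ^ (κ / 2) / Real.log n ^ 6 ≤ 2 * (Y : ℝ) ^ (κ / 2) / Real.log Y ^ 6 :=
        div_le_div₀ (by positivity) c3 (by positivity) c4
    _ ≤ Real.log Y * (Y : ℝ) ^ (κ / 2) / Real.log Y ^ 6 := by
        refine div_le_div_of_nonneg_right (mul_le_mul_of_nonneg_right l2 yp.le) (by positivity)
    _ = (Y : ℝ) ^ (κ / 2) / Real.log Y ^ 5 := by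
        field_simp

/-- one dyadic step -/
theorem step {κ : ℝ} {A X₀ : ℕ} (h1 : 0 < κ) (h2 : κ < 1)
    (hF : ∀ Y : ℕ, X₀ ≤ Y → (((Ioc Y (2 * Y)).filter (fun n =>
      (((kset ((Y : ℝ) ^ κ) n).ncard : ℕ) : ℝ) < (Y : ℝ) ^ (κ / 2) / Real.log Y ^ 5)).card : ℝ) ≤ Y / Real.log Y ^ A)
    {X Y : ℕ} (hY : 8 ≤ Y) (hY0 : X₀ ≤ Y) (hX : X ≤ 2 * Y) :
    ((bset κ X).ncard : ℝ) ≤ (bset κ Y).ncard + Y / Real.log Y ^ A := by
  have hs : bset κ X ⊆ bset κ Y ∪ (((Ioc Y (2 * Y)).filter (fun n =>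
      (((kset ((Y : ℝ) ^ κ) n).ncard : ℕ) : ℝ) < (Y : ℝ) ^ (κ / 2) / Real.log Y ^ 5) : Finset ℕ) : Set ℕ) := by
    intro n hn
    by_cases h : n ≤ Y
    · exact Or.inl ⟨hn.1, h, hn.2.2⟩
    · refine Or.inr ?_
      rw [Finset.mem_coe, Finset.mem_filter, Finset.mem_Ioc]
      exact ⟨⟨by omega, hn.2.1.trans hX⟩, bad_scale h1 h2 hY (by omega) (hn.2.1.trans hX) hn.2.2⟩
  have h3 := (Set.ncard_le_ncard hs ((bset_finite κ Y).union (Finset.finite_toSet _))).trans (Set.ncard_union_le _ _)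
  rw [Set.ncard_coe_finset] at h3
  have h4 : ((bset κ X).ncard : ℝ) ≤ (bset κ Y).ncard + ((Ioc Y (2 * Y)).filter (fun n =>
      (((kset ((Y : ℝ) ^ κ) n).ncard : ℕ) : ℝ) < (Y : ℝ) ^ (κ / 2) / Real.log Y ^ 5)).card := by exact_mod_cast h3
  exact h4.trans (by have := hF Y hY0; linarith)

/-- all numbers, with a free threshold `M` -/
theorem count {κ : ℝ} {A X₀ : ℕ} (h1 : 0 < κ) (h2 : κ < 1)
    (hF : ∀ Y : ℕ, X₀ ≤ Y → (((Ioc Y (2 * Y)).filter (fun n =>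
      (((kset ((Y : ℝ) ^ κ) n).ncard : ℕ) : ℝ) < (Y : ℝ) ^ (κ / 2) / Real.log Y ^ 5)).card : ℝ) ≤ Y / Real.log Y ^ A)
    {M : ℕ} (hM : 8 ≤ M) (hM0 : X₀ ≤ M) (X : ℕ) :
    ((bset κ X).ncard : ℝ) ≤ 2 * M + 2 * X / Real.log M ^ A := by
  have hM' : (8 : ℝ) ≤ M := by exact_mod_cast hM
  have lM : 0 < Real.log M := Real.log_pos (by linarith)
  induction X using Nat.strong_induction_on with
  | _ X ih =>
    by_cases hX : X ≤ 2 * M
    · have h3 : ((bset κ X).ncard : ℝ) ≤ X := by exact_mod_cast bset_card_le κ X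
      have h4 : (X : ℝ) ≤ 2 * M := by exact_mod_cast hX
      have h5 : (0 : ℝ) ≤ 2 * X / Real.log M ^ A := by positivity
      linarith
    · set Y := (X + 1) / 2 with hY
      have y1 : Y < X := by omega
      have y2 : M ≤ Y := by omega
      have y3 : X ≤ 2 * Y := by omega
      have y4 : 2 * Y ≤ X + 1 := by omega
      have h3 := step h1 h2 hF (hM.trans y2) (hM0.trans y2) y3
      have h4 := ih Y y1
      have h5 : (Y : ℝ) / Real.log Y ^ A ≤ Y / Real.log M ^ A := by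
        refine div_le_div_of_nonneg_left (by positivity) (by positivity) (pow_le_pow_left₀ lM.le ?_ A)
        exact Real.log_le_log (by linarith) (by exact_mod_cast y2)
      have h6 : (2 * (Y : ℝ)) ≤ X + 1 := by exact_mod_cast y4
      have h7 : (16 : ℝ) < X := by
        have : 16 < X := by omega
        exact_mod_cast this
      have h8 : 2 * (Y : ℝ) / Real.log M ^ A + Y / Real.log M ^ A ≤ 2 * X / Real.log M ^ A := by
        rw [← add_div]
        exact div_le_div_of_nonneg_right (by linarith) (by positivity)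
      linarith

/-- `(log X)^A ≤ K √X` -/
theorem log_pow_le (A : ℕ) {x : ℝ} (hx : 1 ≤ x) : Real.log x ^ A ≤ (2 * (A + 1)) ^ A * x ^ (1 / 2 : ℝ) := by
  set ε : ℝ := 1 / (2 * (A + 1)) with hε
  have e0 : 0 < ε := by positivity
  have h1 := Real.log_le_rpow_div (x := x) (by linarith) e0
  have h2 : 0 ≤ Real.log x := Real.log_nonneg hx
  have h3 := pow_le_pow_left₀ h2 h1 A
  refine h3.trans ?_
  have e1 : (x ^ ε / ε) ^ A = (2 * (A + 1)) ^ A * x ^ (ε * A) := by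
    rw [div_pow, ← Real.rpow_mul_natCast (by linarith), hε]
    rw [one_div, inv_pow, div_inv_eq_mul, mul_comm]
  rw [e1]
  refine mul_le_mul_of_nonneg_left (Real.rpow_le_rpow_of_exponent_le hx ?_) (by positivity)
  rw [hε, div_mul_eq_mul_div, one_mul, div_le_div_iff₀ (by positivity) (by norm_num)]
  linarith

/-- **FIN** -/
theorem hFIN (hFn1 : StFn1) : StFin := by
  intro κ A k1 k2
  obtain ⟨X₀, hX⟩ := hFn1 κ k1 k2 A
  have hF : ∀ Y : ℕ, X₀ ≤ Y → (((Ioc Y (2 * Y)).filter (fun n =>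
      (((kset ((Y : ℝ) ^ κ) n).ncard : ℕ) : ℝ) < (Y : ℝ) ^ (κ / 2) / Real.log Y ^ 5)).card : ℝ) ≤
      Y / Real.log Y ^ A := by
    intro Y hY
    have h := hX Y hY
    unfold kset
    convert h using 3
  set K : ℝ := (2 * (A + 1)) ^ A with hK
  refine ⟨2 * ((X₀ + 8 : ℕ) + 1) * K + 2 * 2 ^ A, fun X hX2 => ?_⟩
  have hX2' : (2 : ℝ) ≤ X := by exact_mod_cast hX2
  have lX : 0 < Real.log X := Real.log_pos (by linarith)
  set s : ℝ := (X : ℝ) ^ (1 / 2 : ℝ) with hs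
  have s1 : 1 ≤ s := Real.one_le_rpow (by linarith) (by norm_num)
  have ss : s * s = X := by
    rw [hs, ← Real.rpow_add (by linarith)]
    norm_num
  set M : ℕ := X₀ + 8 + ⌊s⌋₊ with hM
  have h3 := count (by linarith) k2 hF (M := M) (by omega) (by omega) X
  have hsM : s ≤ M := by
    have := Nat.lt_floor_add_one s
    rw [hM]
    push_cast
    linarith [Nat.cast_nonneg (α := ℝ) X₀]
  have hMs : (M : ℝ) ≤ (X₀ + 8 : ℕ) + s := by
    have := Nat.floor_le (by linarith : 0 ≤ s)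
    rw [hM]
    push_cast
    linarith
  have lM : Real.log X / 2 ≤ Real.log M := by
    have h4 : Real.log s ≤ Real.log M := Real.log_le_log (by linarith) hsM
    rw [hs, Real.log_rpow (by linarith)] at h4
    linarith
  have h5 : 2 * (X : ℝ) / Real.log M ^ A ≤ 2 * 2 ^ A * (X / Real.log X ^ A) := by
    have h6 : (Real.log X / 2) ^ A ≤ Real.log M ^ A := pow_le_pow_left₀ (by positivity) lM A
    calc 2 * (X : ℝ) / Real.log M ^ A ≤ 2 * X / (Real.log X / 2) ^ A :=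
          div_le_div_of_nonneg_left (by positivity) (by positivity) h6
      _ = 2 * 2 ^ A * (X / Real.log X ^ A) := by
          rw [div_pow]
          field_simp
  have h7 : s ≤ K * (X / Real.log X ^ A) := by
    have h8 := log_pow_le A (x := X) (by linarith)
    rw [← mul_div_assoc, le_div_iff₀ (by positivity)]
    calc s * Real.log X ^ A ≤ s * (K * s) := mul_le_mul_of_nonneg_left h8 (by linarith)
      _ = K * X := by rw [← ss]; ring
  have h9 : 2 * (M : ℝ) ≤ 2 * ((X₀ + 8 : ℕ) + 1) * K * (X / Real.log X ^ A) := by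
    have h10 : 2 * (M : ℝ) ≤ 2 * ((X₀ + 8 : ℕ) + 1) * s := by
      have : ((X₀ + 8 : ℕ) : ℝ) * 1 ≤ ((X₀ + 8 : ℕ) : ℝ) * s := mul_le_mul_of_nonneg_left s1 (Nat.cast_nonneg _)
      linarith
    refine h10.trans ?_
    rw [mul_assoc (2 * (((X₀ + 8 : ℕ) : ℝ) + 1)) K]
    exact mul_le_mul_of_nonneg_left h7 (by positivity)
  have h11 : ((bset κ X).ncard : ℝ) ≤ (2 * ((X₀ + 8 : ℕ) + 1) * K + 2 * 2 ^ A) * X / Real.log X ^ A := by
    rw [mul_div_assoc, add_mul]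
    linarith
  exact h11

end Pool.Agent.Helper42.SK
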